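import Pool.Agent.H648.Q.Defs2
import Pool.Agent.H233.Q648.Far

/-!
# Q648 FARI: far pairs of different sign and equal character contribute little
-/

set_option autoImplicit false

namespace Pool.Agent.H603.Q648

open Finset Filter
open Pool.Agent.H376R2.MR (FK Fj Fj_le Fj_le_sq)
open Pool.Agent.W78.GA (Qd nm prim bg dt ip ang pball ball DPG ps kap lat mem_pball prim_ne_zero)
open Pool.Agent.W803.GA (rd)
open Pool.Agent.H648.Q (UU)
open Pool.Agent.H648.Q2
open Pool.Agent.H233.Q648 (far_pt far_sum disc_L)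

theorem fari {g : ℕ → ℤ} {b m : ℤ} {A : ℕ} {χ : ℤ → ℤ} (hD : b ^ 2 < 4 * m) (hA : 1 ≤ A) :
    S_FARI g b m A χ := by
  classical
  obtain ⟨C, hC, hfar⟩ := far_sum (disc_L hD hA)
  refine ⟨C, hC, ?_⟩
  intro X T K u hX hT hK hTK hu0
  have hK0 : (0 : ℝ) ≤ K := Nat.cast_nonneg K
  have hT0 : 0 < T := by linarith
  have hf := hfar X T K u hX hT hK hu0
  have hsub : UU b m A A X ⊆ pball (b * A) (m * A ^ 2) X := Finset.filter_subset _ _
  have hpt : FSI g b m A χ u K X ≤
      ∑ z ∈ UU b m A A X, ∑ z' ∈ UU b m A A X,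
        ((if (g (nm z) ≠ g (nm (u * z')) ∧ χ z.re = χ (u * z').re) ∧
            |rd (ang z - ang (u * z'))| ≤ T / K then (K : ℝ) else 0) +
        ∑ j ∈ range (K + 2), (if |rd (ang z - ang (u * z'))| ≤ 2 ^ (j + 1) * T / K then
          Real.pi ^ 2 * K / (T ^ 2) * (1 / 4) ^ j else 0)) := by
    unfold FSI
    exact Finset.sum_le_sum fun z _ => Finset.sum_le_sum fun z' _ => far_pt hT hK _ _
  refine hpt.trans ?_
  simp only [Finset.sum_add_distrib]
  refine add_le_add (le_of_eq ?_) ?_
  · rw [← Finset.sum_product', ← Finset.sum_filter, Finset.sum_const, nsmul_eq_mul, mul_comm]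
    congr 2
    unfold API
    refine congrArg Finset.card (Finset.filter_congr fun p _ => ?_)
    rw [and_assoc]
  · refine le_trans ?_ hf
    have nn : ∀ z z' : Qd (b * A) (m * A ^ 2), 0 ≤ ∑ j ∈ range (K + 2),
        (if |rd (ang z - ang (u * z'))| ≤ 2 ^ (j + 1) * T / K then
          Real.pi ^ 2 * K / (T ^ 2) * (1 / 4) ^ j else 0) := by
      intro z z'
      apply Finset.sum_nonneg
      intro j _
      split_ifs
      · positivity
      · exact le_rfl
    calc _ ≤ ∑ z ∈ UU b m A A X, ∑ z' ∈ pball (b * A) (m * A ^ 2) X, ∑ j ∈ range (K + 2),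
        (if |rd (ang z - ang (u * z'))| ≤ 2 ^ (j + 1) * T / K then
          Real.pi ^ 2 * K / (T ^ 2) * (1 / 4) ^ j else 0) :=
          Finset.sum_le_sum fun z _ => Finset.sum_le_sum_of_subset_of_nonneg hsub
            fun z' _ _ => nn z z'
      _ ≤ ∑ z ∈ pball (b * A) (m * A ^ 2) X, ∑ z' ∈ pball (b * A) (m * A ^ 2) X,
        ∑ j ∈ range (K + 2),
        (if |rd (ang z - ang (u * z'))| ≤ 2 ^ (j + 1) * T / K then
          Real.pi ^ 2 * K / (T ^ 2) * (1 / 4) ^ j else 0) :=
          Finset.sum_le_sum_of_subset_of_nonneg hsub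
            fun z _ _ => Finset.sum_nonneg fun z' _ => nn z z'
      _ = _ := by
          refine Finset.sum_congr rfl fun z _ => Finset.sum_congr rfl fun z' _ =>
            Finset.sum_congr rfl fun j _ => ?_
          split_ifs <;> rfl

end Pool.Agent.H603.Q648
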